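import Pool.Agent.Helper94.UP.Sheet2

/-! Row ASD of the sheet UP2. -/

open scoped ContDiff NNReal
open Set Filter Topology

namespace Pool.Agent.Helper94.UP

theorem asd_dir.{u} {X : Type u} [NormedAddCommGroup X] [NormedSpace ℝ X] (ψ : X → ℝ)
    (T : X →L[ℝ] ℝ) (v : X) (hT : HasFDerivAt ψ T v) (ε : ℝ)
    (h : ∀ᶠ w in 𝓝 v, ψ v ≤ ψ w + ε * ‖w - v‖) (u : X) : -(ε * ‖u‖) ≤ T u := by
  have h1 : HasDerivAt (fun t : ℝ => v + t • u) u 0 := by
    have h2 : HasDerivAt (fun t : ℝ => t • u) ((1 : ℝ) • u) 0 := (hasDerivAt_id (0 : ℝ)).smul_const u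
    rw [one_smul] at h2
    exact h2.const_add v
  have h3 : HasDerivAt (fun t : ℝ => ψ (v + t • u)) (T u) 0 := by
    have h4 : HasFDerivAt ψ T (v + (0 : ℝ) • u) := by
      rw [zero_smul, add_zero]
      exact hT
    exact HasFDerivAt.comp_hasDerivAt (0 : ℝ) h4 h1
  have h5 : Tendsto (fun t : ℝ => t⁻¹ • (ψ (v + (0 + t) • u) - ψ (v + (0 : ℝ) • u)))
      (𝓝[>] 0) (𝓝 (T u)) := h3.tendsto_slope_zero_right
  have h6 : ∀ᶠ t : ℝ in 𝓝[>] 0, -(ε * ‖u‖) ≤ t⁻¹ • (ψ (v + (0 + t) • u) - ψ (v + (0 : ℝ) • u)) := by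
    have hc : Tendsto (fun t : ℝ => v + t • u) (𝓝[>] 0) (𝓝 v) := by
      have h7 : Tendsto (fun t : ℝ => v + t • u) (𝓝 0) (𝓝 (v + (0 : ℝ) • u)) :=
        h1.continuousAt.tendsto
      rw [zero_smul, add_zero] at h7
      exact h7.mono_left nhdsWithin_le_nhds
    filter_upwards [hc.eventually h, self_mem_nhdsWithin] with t ht ht0
    have ht0' : 0 < t := ht0
    rw [zero_smul, add_zero, zero_add, smul_eq_mul, ← div_eq_inv_mul, le_div_iff₀ ht0']
    rw [add_sub_cancel_left, norm_smul, Real.norm_eq_abs, abs_of_pos ht0'] at ht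
    linarith
  exact ge_of_tendsto h5 h6

theorem stASD.{u} (h : ST_EKE.{u}) : ST_ASD.{u} := by
  intro X _ _ _ b hb h01 hb0 hbz g ε hε
  have hbc : Continuous b := hb.continuous
  have hg0 : 0 ≤ ‖g‖ := norm_nonneg g
  obtain ⟨β, hβ⟩ : ∃ β : ℝ, β = 1 / (1 + ‖g‖) := ⟨_, rfl⟩
  have hβ0 : 0 < β := by rw [hβ]; positivity
  have hβ1 : β ≤ 1 := by
    rw [hβ, div_le_one (by linarith)]
    linarith
  let S : Set X := {x | β ≤ b x ∧ 1 ≤ b x * (1 + g x)}
  have hScl : IsClosed S := by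
    apply IsClosed.inter
    · exact isClosed_le continuous_const hbc
    · exact isClosed_le continuous_const (hbc.mul (continuous_const.add g.continuous))
  have h0S : (0 : X) ∈ S := by
    refine ⟨by rw [hb0]; exact hβ1, ?_⟩
    rw [hb0, map_zero]
    norm_num
  have : CompleteSpace S := hScl.completeSpace_coe
  have : Nonempty S := ⟨⟨0, h0S⟩⟩
  have hlt : ∀ x, 0 < b x → ‖x‖ < 1 := by
    intro x hx
    by_contra hc
    rw [hbz x (not_lt.1 hc)] at hx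
    exact lt_irrefl _ hx
  have hgx : ∀ x, 0 < b x → g x ≤ ‖g‖ := by
    intro x hx
    calc g x ≤ ‖g x‖ := Real.le_norm_self _
      _ ≤ ‖g‖ * ‖x‖ := g.le_opNorm x
      _ ≤ ‖g‖ * 1 := mul_le_mul_of_nonneg_left (hlt x hx).le hg0
      _ = ‖g‖ := mul_one _
  let ψ : X → ℝ := fun x => (b x)⁻¹ - g x
  have hψc : Continuous (fun x : S => ψ x) := by
    apply Continuous.sub
    · apply Continuous.inv₀ (hbc.comp continuous_subtype_val)
      intro x
      exact (lt_of_lt_of_le hβ0 x.2.1).ne'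
    · exact g.continuous.comp continuous_subtype_val
  have hψb : ∀ x : S, -‖g‖ ≤ ψ x := by
    intro x
    have h1 : 0 < b x := lt_of_lt_of_le hβ0 x.2.1
    have h2 := hgx x h1
    have h3 : 0 < (b x)⁻¹ := inv_pos.2 h1
    change -‖g‖ ≤ (b x)⁻¹ - g x
    linarith
  obtain ⟨v, hv⟩ := h (fun x : S => ψ x) hψc ⟨-‖g‖, hψb⟩ ε hε
  have hbv : 0 < b v := lt_of_lt_of_le hβ0 v.2.1
  have hψv : ψ v ≤ 1 := by
    have h1 := v.2.2
    change (b v)⁻¹ - g v ≤ 1
    have h2 : (b v)⁻¹ ≤ 1 + g v := by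
      rw [inv_le_iff_one_le_mul₀ hbv, mul_comm]
      exact h1
    linarith
  have hout : ∀ w, 0 < b w → w ∉ S → 1 < ψ w := by
    intro w hw hwS
    by_contra hc
    apply hwS
    have h1 : (b w)⁻¹ - g w ≤ 1 := not_lt.1 hc
    have h2 : (b w)⁻¹ ≤ 1 + g w := by linarith
    have h3 : 1 ≤ b w * (1 + g w) := by
      rw [inv_le_iff_one_le_mul₀ hw, mul_comm] at h2
      exact h2
    refine ⟨?_, h3⟩
    have h4 : 1 + g w ≤ 1 + ‖g‖ := by linarith [hgx w hw]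
    have h5 : 1 ≤ b w * (1 + ‖g‖) := h3.trans (mul_le_mul_of_nonneg_left h4 hw.le)
    rw [hβ, div_le_iff₀ (by linarith)]
    exact h5
  have hall : ∀ w, 0 < b w → ψ v ≤ ψ w + ε * ‖w - v‖ := by
    intro w hw
    by_cases hwS : w ∈ S
    · have h1 := hv ⟨w, hwS⟩
      have h2 : dist (⟨w, hwS⟩ : S) v = ‖w - v‖ := by
        rw [Subtype.dist_eq, dist_eq_norm]
      rw [h2] at h1
      exact h1
    · have h1 := hout w hw hwS
      have h2 : 0 ≤ ε * ‖w - v‖ := by positivity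
      linarith
  have hev : ∀ᶠ w in 𝓝 (v : X), ψ v ≤ ψ w + ε * ‖w - v‖ := by
    filter_upwards [hbc.continuousAt.eventually (lt_mem_nhds hbv)] with w hw
    exact hall w hw
  have hd : DifferentiableAt ℝ (fun x => (b x)⁻¹) (v : X) :=
    ((hb.differentiable (by norm_num)).differentiableAt).inv hbv.ne'
  have hT : HasFDerivAt ψ (fderiv ℝ (fun x => (b x)⁻¹) (v : X) - g) v :=
    hd.hasFDerivAt.sub g.hasFDerivAt
  refine ⟨v, hbv, ?_⟩
  refine ContinuousLinearMap.opNorm_le_bound _ hε.le fun u => ?_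
  rw [Real.norm_eq_abs, abs_le]
  refine ⟨asd_dir ψ _ v hT ε hev u, ?_⟩
  have h1 := asd_dir ψ _ v hT ε hev (-u)
  rw [norm_neg, map_neg] at h1
  linarith

end Pool.Agent.Helper94.UP
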